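import Pool.Agent.helper70.LE.SpecN

/-!
# Project LE (MP_baa4d7_al), row NYT: elements of the inertial group normalise the block idempotents
-/

set_option autoImplicit false

namespace Pool.Agent.LE

open Pool.Agent.helper58.DC Pool.Agent.DI Pool.Agent.GR Pool.Agent.OB Pool.Agent.DR Pool.Agent.FI Pool.Agent.FI3 Pool.Agent.FI4

theorem NYT_nz {G : Type} [Group G] {Q : Subgroup G} {t : G} (h : ∀ q ∈ Q, t * q * t⁻¹ ∈ Q) (h' : ∀ q ∈ Q, t⁻¹ * q * t ∈ Q) :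
    t ∈ nz Q := by
  rw [Subgroup.mem_normalizer_iff]
  intro q
  refine ⟨h q, fun hq => ?_⟩
  have h1 := h' _ hq
  have h2 : t⁻¹ * (t * q * t⁻¹) * t = q := by group
  rwa [h2] at h1

theorem NYT_nz1 {G : Type} [Group G] {Q : Subgroup G} {t : G} (h : t ∈ nz Q) {q : G} (hq : q ∈ Q) : t * q * t⁻¹ ∈ Q :=
  (Subgroup.mem_normalizer_iff.1 h q).1 hq

theorem NYT_nz2 {G : Type} [Group G] {Q : Subgroup G} {t : G} (h : t ∈ nz Q) {q : G} (hq : q ∈ Q) : t⁻¹ * q * t ∈ Q := by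
  have h1 := NYT_nz1 ((nz Q).inv_mem h) hq
  rwa [inv_inv] at h1

theorem NYT_cz {G : Type} [Group G] {Q : Subgroup G} {t : G} (h : t ∈ nz Q) : t ∈ nz (cz Q) := by
  refine NYT_nz (fun l hl => cz_conj h hl) (fun l hl => ?_)
  have h1 := cz_conj ((nz Q).inv_mem h) hl
  rwa [inv_inv] at h1

theorem NYT_sup {G : Type} [Group G] {Q : Subgroup G} {t u : G} (h : ∀ q ∈ Q, t * q * t⁻¹ ∈ Q) (hu : t * u = u * t) :
    ∀ q ∈ Q ⊔ Subgroup.zpowers u, t * q * t⁻¹ ∈ Q ⊔ Subgroup.zpowers u := by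
  have h1 : Q ⊔ Subgroup.zpowers u ≤ (Q ⊔ Subgroup.zpowers u).comap (MulAut.conj t).toMonoidHom := by
    refine sup_le (fun q hq => ?_) ?_
    · rw [Subgroup.mem_comap]
      exact Subgroup.mem_sup_left (h q hq)
    · rw [Subgroup.zpowers_le, Subgroup.mem_comap]
      have h2 : (MulAut.conj t).toMonoidHom u = u := by
        change t * u * t⁻¹ = u
        rw [hu]
        group
      rw [h2]
      exact Subgroup.mem_sup_right (Subgroup.mem_zpowers u)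
  intro q hq
  exact h1 hq

theorem NYT_one (hFRA4 : FRA4_stmt) (hHIB : HIB_stmt) {p : ℕ} {M : Ideal (integralClosure ℤ ℂ)} (hM : Setup p M) {G : Type}
    [Group G] [Finite G] {D : Subgroup G} {x : G} {θ χ : G → ℂ} (h : LoA p M D x θ χ) {Q : Subgroup G} (hQ : Q ≤ D)
    {t : G} (ht : t ∈ TT M D θ) (htQ : t ∈ nz Q) : NY (cz Q) (eBl M (cz Q) θ) t := by
  by_cases hne : (Bl M (cz Q) θ).Nonempty
  · obtain ⟨ψ, hψ⟩ := hne
    exact (hHIB p M hM G (cz Q) θ).2.1 t (NYT_cz htQ) ⟨ψ, hψ, (hFRA4 p M hM G D x θ χ h Q hQ).2.2 t ht htQ ψ hψ⟩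
  · have he : ∀ y, eBl M (cz Q) θ y = 0 := by
      intro y
      change (∑ᶠ ψ ∈ Bl M (cz Q) θ, ψ 1 * ψ y⁻¹) / (Nat.card (cz Q) : ℂ) = 0
      rw [Set.not_nonempty_iff_eq_empty.1 hne]
      simp
    exact ⟨NYT_cz htQ, fun y => by rw [he, he]⟩

/-- **Row NYT** -/
theorem NYT (hFRA4 : FRA4_stmt) (hHIB : HIB_stmt) : NYT_stmt := by
  intro p M hM G _ _ D x θ χ h Q hQ t ht htQ
  refine ⟨NYT_one hFRA4 hHIB hM h hQ ht htQ, ?_, ?_⟩
  · intro u hu htu
    have hQ' : Q ⊔ Subgroup.zpowers u ≤ D := sup_le hQ (by rw [Subgroup.zpowers_le]; exact hu)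
    have hnz : t ∈ nz (Q ⊔ Subgroup.zpowers u) := by
      refine NYT_nz (NYT_sup (fun q hq => NYT_nz1 htQ hq) htu) ?_
      have h1 := NYT_sup (t := t⁻¹) (u := u) (Q := Q) (fun q hq => by
        rw [inv_inv]
        exact NYT_nz2 htQ hq) (by
        calc t⁻¹ * u = t⁻¹ * (u * t) * t⁻¹ := by group
          _ = t⁻¹ * (t * u) * t⁻¹ := by rw [htu]
          _ = u * t⁻¹ := by group)
      intro q hq
      have h2 := h1 q hq
      rwa [inv_inv] at h2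
    have h3 := NYT_one hFRA4 hHIB hM h hQ' ht hnz
    rw [cz_sup_zpowers] at h3
    exact ⟨h3, hnz⟩
  · intro hRP Q' _ hQQ' s hs hsQ
    exact hRP s hs (cz_mono hQQ' hsQ)

end Pool.Agent.LE
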