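import Pool.Agent.helper12.LE.SpecB

/-!
# Project LE (MP_baa4d7_al), row KXC: orthogonality for one regular coset
-/

set_option autoImplicit false

namespace Pool.Agent.LE

open Pool.Agent.helper58.DC Pool.Agent.DI Pool.Agent.GR Pool.Agent.OB Pool.Agent.DR Pool.Agent.FI Pool.Agent.FI3 Pool.Agent.FI4 Pool.Agent.FI4C Pool.Agent.FI4B

/-- **Row KXC** -/
theorem KXC (hKOR : KOR_stmt) (hKAS : KAS_stmt) (hKZS : KZS_stmt) : KXC_stmt := by
  intro p M hM hp G _ _ D x θ χ hLo ε hε h g K u hK m hm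
  classical
  obtain ⟨k1, k2⟩ := hKAS p M hM G D x θ χ hLo h g K u hK
  have hKf : (K : Set G).Finite := Set.toFinite _
  have hfin : (Bl M (⊤ : Subgroup G) θ).Finite := (IrrOn_fin _).subset fun ψ hψ => hψ.1
  have hfin2 : {ψ : G → ℂ | ψ ∈ Bl M (⊤ : Subgroup G) θ ∧ PR m ψ}.Finite := hfin.subset fun ψ hψ => hψ.1
  set S : Finset (ℕ × G) := Finset.range (p ^ g) ×ˢ hKf.toFinset with hS
  have hSm : ∀ q ∈ S, q.1 < p ^ g ∧ q.2 ∈ K := by
    intro q hq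
    rw [hS, Finset.mem_product, Finset.mem_range, Set.Finite.mem_toFinset] at hq
    exact hq
  set f : ℕ × G → G := fun q => u ^ (1 + p * q.1) * q.2 with hf
  have hinj : Set.InjOn f S := by
    intro q hq q' hq' hqq
    obtain ⟨a1, a2⟩ := hSm q hq
    obtain ⟨b1, b2⟩ := hSm q' hq'
    have h1 := k2 1 (TT M D θ).one_mem q.1 a1 q'.1 b1 q.2 a2 q'.2 b2 (by
      rw [one_mul, inv_one, mul_one]
      exact hqq)
    exact Prod.ext h1.1 h1.2
  have hcard : (S.image f).card = p ^ g * Nat.card K := by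
    rw [Finset.card_image_of_injOn hinj, hS, Finset.card_product, Finset.card_range]
    congr 1
    rw [← Set.ncard_eq_toFinset_card _ hKf]
    exact (Nat.card_coe_set_eq (K : Set G)).symm
  have hOR := hKOR p M hM hp G D x θ χ hLo ε hε.pm (S.image f) (by
    intro a ha
    obtain ⟨q, hq, rfl⟩ := Finset.mem_image.1 ha
    exact k1 q.1 q.2 (hSm q hq).2) (by
    intro a ha b hb t ht htab
    obtain ⟨q, hq, rfl⟩ := Finset.mem_image.1 ha
    obtain ⟨q', hq', rfl⟩ := Finset.mem_image.1 hb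
    have h1 := k2 t ht q'.1 (hSm q' hq').1 q.1 (hSm q hq).1 q'.2 (hSm q' hq').2 q.2 (hSm q hq).2 htab
    have h2 : q' = q := Prod.ext h1.1 h1.2
    rw [h2])
  have hsum : ∀ ψ ∈ {ψ : G → ℂ | ψ ∈ Bl M (⊤ : Subgroup G) θ ∧ PR m ψ},
      ∑ a ∈ S.image f, (ε a : ℂ) * dd M (Cz (⊤ : Subgroup G) a) θ ψ a = (p : ℂ) ^ g * ZK M θ ε K ψ u := by
    intro ψ hψ
    rw [Finset.sum_image hinj, hS, Finset.sum_product]
    have h1 : ∀ s ∈ Finset.range (p ^ g), ∑ k ∈ hKf.toFinset, (ε (f (s, k)) : ℂ) * dd M (Cz (⊤ : Subgroup G) (f (s, k))) θ ψ (f (s, k)) =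
        ZK M θ ε K ψ u := by
      intro s _
      have h2 := hKZS p M hM hp G D x θ χ hLo ε hε h g K u hK m hm ψ hψ.1.1 hψ.2 (1 + p * s) (by
        rw [Nat.ModEq, Nat.add_mul_mod_self_left])
      rw [← h2]
      exact (finsum_mem_eq_finite_toFinset_sum (fun k => (ε (u ^ (1 + p * s) * k) : ℂ) *
        dd M (Cz (⊤ : Subgroup G) (u ^ (1 + p * s) * k)) θ ψ (u ^ (1 + p * s) * k)) hKf).symm
    rw [Finset.sum_congr rfl h1, Finset.sum_const, Finset.card_range, nsmul_eq_mul]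
    push_cast
    ring
  rw [finsum_mem_eq_finite_toFinset_sum _ hfin] at hOR
  rw [finsum_mem_eq_finite_toFinset_sum _ hfin2]
  have hle : ∑ ψ ∈ hfin2.toFinset, ‖∑ a ∈ S.image f, (ε a : ℂ) * dd M (Cz (⊤ : Subgroup G) a) θ ψ a‖ ^ 2 ≤
      ∑ ψ ∈ hfin.toFinset, ‖∑ a ∈ S.image f, (ε a : ℂ) * dd M (Cz (⊤ : Subgroup G) a) θ ψ a‖ ^ 2 := by
    refine Finset.sum_le_sum_of_subset_of_nonneg ?_ fun ψ _ _ => by positivity
    intro ψ hψ
    rw [Set.Finite.mem_toFinset] at hψ ⊢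
    exact hψ.1
  rw [hOR, hcard] at hle
  have heq : ∑ ψ ∈ hfin2.toFinset, ‖∑ a ∈ S.image f, (ε a : ℂ) * dd M (Cz (⊤ : Subgroup G) a) θ ψ a‖ ^ 2 =
      ((p : ℝ) ^ g) * ((p : ℝ) ^ g * ∑ ψ ∈ hfin2.toFinset, ‖ZK M θ ε K ψ u‖ ^ 2) := by
    rw [Finset.mul_sum, Finset.mul_sum]
    refine Finset.sum_congr rfl fun ψ hψ => ?_
    rw [Set.Finite.mem_toFinset] at hψ
    rw [hsum ψ hψ, norm_mul, norm_pow, Complex.norm_natCast]
    ring
  rw [heq] at hle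
  have hpg : (0 : ℝ) < (p : ℝ) ^ g := pow_pos (by exact_mod_cast hM.pr.pos) g
  push_cast at hle
  refine le_of_mul_le_mul_left (hle.trans (le_of_eq ?_)) hpg
  ring

end Pool.Agent.LE
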