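import Pool.Agent.helper83.LE.SpecB

/-!
# Project LE (MP_baa4d7_al), row BDX: the number of the characters fixed by the Galois automorphism
-/

set_option autoImplicit false

namespace Pool.Agent.LE

open scoped Pointwise

open Pool.Agent.helper58.DC Pool.Agent.DI Pool.Agent.GR Pool.Agent.OB Pool.Agent.DR Pool.Agent.FI Pool.Agent.FI3 Pool.Agent.FI4 Pool.Agent.FI4C

theorem BDX_cz (G : Type) [Group G] : cz (⊥ : Subgroup G) = ⊤ := by
  rw [eq_top_iff]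
  intro x _
  rw [Subgroup.mem_centralizer_iff]
  intro y hy
  have h1 : y = 1 := Subgroup.mem_bot.1 hy
  rw [h1, one_mul, mul_one]

/-- DEC for a group `D` with commuting elements -/
theorem BDX_dec (hDEC : DEC_stmt) (hLCG : LCG_stmt) {p : ℕ} (hp : p.Prime) {D : Type} [Group D] [Finite D]
    (com : ∀ a b : D, a * b = b * a) (hpg : IsPGroup p D) (X : Type) [Fintype X] (N n : ℕ) (C : Fin N → Subgroup D)
    (g : X → D → ℂ) (hn : 1 ≤ n) (h1 : ∀ i, 16 ^ N * n < (C i).index) (h2 : ∀ χ u, (∃ i, u ∈ C i) → g χ u = 0)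
    (h3 : ∀ χ (F : D → ℂ), LGC F → (∀ u, (∃ i, u ∈ C i) → F u = 0) →
      ∃ m : ℤ, ∑ᶠ u, g χ u * (starRingEnd ℂ) (F u) = (Nat.card D : ℂ) * m)
    (h4 : ∀ a : X → ℂ, ∑ᶠ u, ‖∑ χ, a χ * g χ u‖ ^ 2 ≤ n * Nat.card D * ∑ χ, ‖a χ‖ ^ 2)
    (h5 : ∀ χ, ∃ u, g χ u ≠ 0) (h6 : ∀ χ (u : D) (s : ℕ), s ≡ 1 [MOD p] → g χ (u ^ s) = g χ u) :
    Fintype.card X ≤ 4 * n * Nat.card {u : D // orderOf u ≤ 4 * p * n} := by
  let _ : CommGroup D := { (inferInstance : Group D) with mul_comm := com }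
  let _ : Fintype D := Fintype.ofFinite D
  obtain ⟨l1, l2, -, -, l5, l6, -, -, -⟩ := hLCG D
  refine hDEC p hp D hpg X N n C g hn h1 h2 ?_ ?_ h5 h6
  · intro χ l w hw
    have hprod : ∀ s : Finset (Fin N), LGC (fun u : D => ∏ i ∈ s, (1 - lv (w i) u)) := by
      intro s
      induction s using Finset.induction_on with
      | empty =>
        have h7 := l1 1
        simp only [Finset.prod_empty]
        simpa using h7
      | insert a s ha ih =>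
        have h7 : LGC (fun u : D => (1 - lv (w a) u) * ∏ i ∈ s, (1 - lv (w i) u)) := by
          refine l6 (fun u => 1 - lv (w a) u) _ ?_ ih
          have h8 := l5 (fun _ => ((1 : ℤ) : ℂ)) (fun u => lv (w a) u) (l1 1) (l2 (w a))
          simpa using h8
        simpa only [Finset.prod_insert ha] using h7
    obtain ⟨m, hm⟩ := h3 χ (fun u => lv l u * ∏ i, (1 - lv (w i) u)) (l6 _ _ (l2 l) (hprod Finset.univ)) (by
      rintro u ⟨i, hi⟩
      have h7 : lv (w i) u = 1 := by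
        change ((w i u : ℂˣ) : ℂ) = 1
        rw [hw i u hi]
        rfl
      have h8 : ∏ i, (1 - lv (w i) u) = 0 := Finset.prod_eq_zero (Finset.mem_univ i) (by rw [h7, sub_self])
      change lv l u * ∏ i, (1 - lv (w i) u) = 0
      rw [h8, mul_zero])
    exact ⟨m, by rw [← hm, finsum_eq_sum_of_fintype]⟩
  · intro a
    have h7 := h4 a
    rw [finsum_eq_sum_of_fintype] at h7
    exact h7

theorem BDX_sum {G : Type} [Group G] [Finite G] (D : Subgroup G) (R : Set G) (hR : R ⊆ D) (f : G → ℝ) :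
    ∑ᶠ u : D, (Subtype.val ⁻¹' R).indicator (fun u : D => f u) u = ∑ᶠ u ∈ R, f u := by
  classical
  have h1 : ∑ᶠ u ∈ R, f u = ∑ᶠ u ∈ (D : Set G), R.indicator f u := by
    rw [finsum_mem_def, finsum_mem_def]
    refine finsum_congr fun u => ?_
    by_cases hu : u ∈ R
    · rw [Set.indicator_of_mem hu, Set.indicator_of_mem (hR hu), Set.indicator_of_mem hu]
    · rw [Set.indicator_of_notMem hu]
      by_cases hD : u ∈ (D : Set G)
      · rw [Set.indicator_of_mem hD, Set.indicator_of_notMem hu]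
      · rw [Set.indicator_of_notMem hD]
  rw [h1, ← finsum_set_coe_eq_finsum_mem]
  refine finsum_congr fun u => ?_
  by_cases hu : (u : G) ∈ R
  · rw [Set.indicator_of_mem (show u ∈ Subtype.val ⁻¹' R from hu), Set.indicator_of_mem hu]
  · rw [Set.indicator_of_notMem (show u ∉ Subtype.val ⁻¹' R from hu), Set.indicator_of_notMem hu]

/-- sums over the characters of a block which are fixed -/
theorem BDX_ext {G : Type} [Group G] [Finite G] {S : Set (G → ℂ)} (P : (G → ℂ) → Prop)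
    [Fintype {ψ : G → ℂ // ψ ∈ S ∧ P ψ}] {E : Type} [AddCommMonoid E] (b : {ψ : G → ℂ // ψ ∈ S ∧ P ψ} → E) (F : (G → ℂ) → E)
    (h1 : ∀ ψ : {ψ : G → ℂ // ψ ∈ S ∧ P ψ}, F ψ = b ψ) (h2 : ∀ ψ, ψ ∈ S → ¬ P ψ → F ψ = 0) :
    ∑ᶠ ψ ∈ S, F ψ = ∑ ψ, b ψ := by
  classical
  have h3 : ∑ᶠ ψ ∈ S, F ψ = ∑ᶠ ψ ∈ {ψ : G → ℂ | ψ ∈ S ∧ P ψ}, F ψ := by
    rw [finsum_mem_def, finsum_mem_def]
    refine finsum_congr fun ψ => ?_
    by_cases hψ : ψ ∈ S
    · by_cases hP : P ψ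
      · rw [Set.indicator_of_mem hψ, Set.indicator_of_mem (show ψ ∈ {ψ : G → ℂ | ψ ∈ S ∧ P ψ} from ⟨hψ, hP⟩)]
      · rw [Set.indicator_of_mem hψ, Set.indicator_of_notMem (show ψ ∉ {ψ : G → ℂ | ψ ∈ S ∧ P ψ} from fun h => hP h.2),
          h2 ψ hψ hP]
    · rw [Set.indicator_of_notMem hψ,
        Set.indicator_of_notMem (show ψ ∉ {ψ : G → ℂ | ψ ∈ S ∧ P ψ} from fun h => hψ h.1)]
  rw [h3, ← finsum_set_coe_eq_finsum_mem]
  have h4 : ∑ᶠ ψ : {ψ : G → ℂ | ψ ∈ S ∧ P ψ}, F ψ = ∑ ψ : {ψ : G → ℂ // ψ ∈ S ∧ P ψ}, F ψ :=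
    finsum_eq_sum_of_fintype (α := {ψ : G → ℂ // ψ ∈ S ∧ P ψ}) (fun ψ => F ψ)
  rw [h4]
  exact Finset.sum_congr rfl fun ψ _ => h1 ψ

/-- the bound, with the size condition as a hypothesis -/
theorem BDX_main (hDEC : DEC_stmt) (hSGL : SGL_stmt) (hCOV : COV_stmt) (hDP2 : DP2_stmt) (hBES : BES4_stmt) (hNZ3 : NZ3_stmt)
    (hGRG : GRG_stmt) (hRGF : RGF_stmt) (hLCG : LCG_stmt) (hTPR : FI.TPR_stmt)
    (p : ℕ) (M : Ideal (integralClosure ℤ ℂ)) (hM : Setup p M) (hp : p ≠ 2) (G : Type) [Group G] [Finite G]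
    (D : Subgroup G) (x : G) (θ χ : G → ℂ) (h : LoA p M D x θ χ) (n c h' : ℕ) (hHL : HL p M D θ n c h')
    (hexp : 16 ^ n * n < p ^ c) (m : ℕ) (hm : Gm2 p (Nat.card G) m) :
    {ψ : G → ℂ | ψ ∈ Blk M χ (⊤ : Subgroup G) ∧ PR m ψ}.ncard ≤
      4 * iI M D θ * {u : G | u ∈ D ∧ orderOf u ≤ 4 * p * iI M D θ}.ncard := by
  classical
  have hR := h.rt
  have hcz := BDX_cz G
  have hpg : IsPGroup p D := hR.dfa.pgrp
  obtain ⟨-, r2, -, -, r5, -⟩ := hRGF p M hM.pr G D θ hR.th hpg hR.com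
  obtain ⟨-, h2, -, -, -⟩ := hTPR p M hM G
  have hBl : Blk M χ (⊤ : Subgroup G) = Bl M (⊤ : Subgroup G) θ := by
    have h3 : SB M (⊤ : Subgroup G) θ χ := (h2 θ χ).1 hR.ind
    ext ψ
    constructor
    · rintro ⟨h4, h5⟩
      exact ⟨h4, ((h2 ψ χ).1 h5).trans h3.symm⟩
    · rintro ⟨h4, h5⟩
      exact ⟨h4, (h2 ψ χ).2 (h5.trans h3)⟩
  have hBES' := hBES p M hM hp G D x θ χ h
  rw [hBl] at hBES' ⊢
  have hfin : (Bl M (⊤ : Subgroup G) θ).Finite := (IrrOn_fin _).subset fun ψ hψ => hψ.1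
  obtain ⟨ε, e1, e2, e3⟩ := hSGL p M hM hp G D x θ χ h
  obtain ⟨C, hC1, hC2⟩ := hCOV p M hM.pr G D θ n c h' hpg hR.com (fun t ht => ht.1) cz_le_TT hHL
  have hXf : Finite {ψ : G → ℂ // ψ ∈ Bl M (⊤ : Subgroup G) θ ∧ PR m ψ} :=
    (hfin.subset fun ψ hψ => hψ.1 : {ψ : G → ℂ | ψ ∈ Bl M (⊤ : Subgroup G) θ ∧ PR m ψ}.Finite)
  let _ : Fintype {ψ : G → ℂ // ψ ∈ Bl M (⊤ : Subgroup G) θ ∧ PR m ψ} := Fintype.ofFinite _
  have hRD : RG M D θ ⊆ (D : Set G) := fun u hu => hu.1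
  have hin : iI M D θ ≤ n := hHL.le
  have hidx : ∀ i, 16 ^ (iI M D θ - 1) * iI M D θ < (C i).index := by
    intro i
    refine lt_of_le_of_lt ?_ (lt_of_lt_of_le hexp (hC2 i))
    exact Nat.mul_le_mul (Nat.pow_le_pow_right (by norm_num) (by omega)) hin
  -- regular elements exist
  have hreg : ∃ u : D, (u : G) ∈ RG M D θ := by
    by_contra hcon
    push Not at hcon
    have hcov : ⋃ i ∈ (Finset.univ : Finset (Fin (iI M D θ - 1))), (1 : D) • ((C i : Subgroup D) : Set D) = Set.univ := by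
      rw [Set.eq_univ_iff_forall]
      intro u
      obtain ⟨i, hi⟩ := (hC1 u).1 (hcon u)
      simp only [one_smul, Set.mem_iUnion]
      exact ⟨i, Finset.mem_univ _, hi⟩
    obtain ⟨i, -, -, hi⟩ := Subgroup.exists_index_le_card_of_leftCoset_cover (g := fun _ => (1 : D)) hcov
    rw [Finset.card_univ, Fintype.card_fin] at hi
    have h3 := hidx i
    have h4 : iI M D θ ≤ 16 ^ (iI M D θ - 1) * iI M D θ := Nat.le_mul_of_pos_left _ (by positivity)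
    omega
  have key := BDX_dec hDEC hLCG hM.pr (D := D) (fun a b => Subtype.ext (hR.com a a.2 b b.2)) hpg
    {ψ : G → ℂ // ψ ∈ Bl M (⊤ : Subgroup G) θ ∧ PR m ψ} (iI M D θ - 1) (iI M D θ) C
    (fun ψ u => {u : D | (u : G) ∈ RG M D θ}.indicator
        (fun u : D => (ε u : ℂ) * dd M (Cz (⊤ : Subgroup G) (u : G)) θ ψ u) u) r5 hidx
    (fun ψ u hu => Set.indicator_of_notMem (show u ∉ {u : D | (u : G) ∈ RG M D θ} from (hC1 u).2 hu) _)
    (fun ψ F hF hF0 => e3 ψ ψ.2.1 F hF (fun u hu => hF0 u ((hC1 u).1 hu))) ?_ ?_ ?_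
  · have k1 : {ψ : G → ℂ | ψ ∈ Bl M (⊤ : Subgroup G) θ ∧ PR m ψ}.ncard =
        Fintype.card {ψ : G → ℂ // ψ ∈ Bl M (⊤ : Subgroup G) θ ∧ PR m ψ} := by
      rw [← Nat.card_coe_set_eq]
      exact Nat.card_eq_fintype_card (α := {ψ : G → ℂ // ψ ∈ Bl M (⊤ : Subgroup G) θ ∧ PR m ψ})
    have k2 : {u : G | u ∈ D ∧ orderOf u ≤ 4 * p * iI M D θ}.ncard = Nat.card {u : D // orderOf u ≤ 4 * p * iI M D θ} := by
      rw [← Nat.card_coe_set_eq]
      refine Nat.card_congr ⟨fun u => ⟨⟨u.1, u.2.1⟩, ?_⟩, fun u => ⟨u.1.1, u.1.2, ?_⟩, fun u => rfl, fun u => rfl⟩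
      · rw [Subgroup.orderOf_mk]
        exact u.2.2
      · rw [Subgroup.orderOf_coe]
        exact u.2
    rw [k1, k2]
    exact key
  · -- Bessel
    intro a
    have h3 := hBES' (fun ψ => if hψ : ψ ∈ Bl M (⊤ : Subgroup G) θ ∧ PR m ψ then a ⟨ψ, hψ⟩ else 0)
    have h4 : ∑ᶠ ψ ∈ Bl M (⊤ : Subgroup G) θ, ‖(if hψ : ψ ∈ Bl M (⊤ : Subgroup G) θ ∧ PR m ψ then a ⟨ψ, hψ⟩ else 0)‖ ^ 2 =
        ∑ ψ, ‖a ψ‖ ^ 2 := by
      refine BDX_ext (PR m) (fun ψ => ‖a ψ‖ ^ 2) _ ?_ ?_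
      · intro ψ
        rw [dif_pos ψ.2]
      · intro ψ _ hP
        rw [dif_neg (fun hψ => hP hψ.2), norm_zero]
        norm_num
    rw [h4] at h3
    have h5 : ∀ u : G, ∑ᶠ ψ ∈ Bl M (⊤ : Subgroup G) θ, (if hψ : ψ ∈ Bl M (⊤ : Subgroup G) θ ∧ PR m ψ then a ⟨ψ, hψ⟩ else 0) *
        dd M (Cz (⊤ : Subgroup G) u) θ ψ u = ∑ ψ : {ψ : G → ℂ // ψ ∈ Bl M (⊤ : Subgroup G) θ ∧ PR m ψ},
          a ψ * dd M (Cz (⊤ : Subgroup G) u) θ ψ u := by
      intro u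
      refine BDX_ext (PR m) (fun ψ => a ψ * dd M (Cz (⊤ : Subgroup G) u) θ ψ u) _ ?_ ?_
      · intro ψ
        rw [dif_pos ψ.2]
      · intro ψ _ hP
        rw [dif_neg (fun hψ => hP hψ.2), zero_mul]
    simp only [h5] at h3
    rw [← BDX_sum D (RG M D θ) hRD] at h3
    have h6 : ∀ u : D, ‖∑ ψ : {ψ : G → ℂ // ψ ∈ Bl M (⊤ : Subgroup G) θ ∧ PR m ψ}, a ψ * {u : D | (u : G) ∈ RG M D θ}.indicator
        (fun u : D => (ε u : ℂ) * dd M (Cz (⊤ : Subgroup G) (u : G)) θ ψ u) u‖ ^ 2 =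
        (Subtype.val ⁻¹' RG M D θ).indicator (fun u : D => ‖∑ ψ : {ψ : G → ℂ // ψ ∈ Bl M (⊤ : Subgroup G) θ ∧ PR m ψ},
          a ψ * dd M (Cz (⊤ : Subgroup G) (u : G)) θ ψ u‖ ^ 2) u := by
      intro u
      by_cases hu : (u : G) ∈ RG M D θ
      · rw [Set.indicator_of_mem (show u ∈ Subtype.val ⁻¹' RG M D θ from hu)]
        simp only [Set.indicator_of_mem (show u ∈ {u : D | (u : G) ∈ RG M D θ} from hu)]
        have h7 : ∑ ψ : {ψ : G → ℂ // ψ ∈ Bl M (⊤ : Subgroup G) θ ∧ PR m ψ}, a ψ * ((ε u : ℂ) * dd M (Cz (⊤ : Subgroup G) (u : G)) θ ψ u) =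
            (ε u : ℂ) * ∑ ψ : {ψ : G → ℂ // ψ ∈ Bl M (⊤ : Subgroup G) θ ∧ PR m ψ}, a ψ * dd M (Cz (⊤ : Subgroup G) (u : G)) θ ψ u := by
          rw [Finset.mul_sum]
          exact Finset.sum_congr rfl fun ψ _ => by ring
        rw [h7, norm_mul]
        have h8 : ‖((ε u : ℤ) : ℂ)‖ = 1 := by
          rcases e1 u with h8 | h8
          · rw [h8]; simp
          · rw [h8]; simp
        rw [h8, one_mul]
      · rw [Set.indicator_of_notMem (show u ∉ Subtype.val ⁻¹' RG M D θ from hu)]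
        simp only [Set.indicator_of_notMem (show u ∉ {u : D | (u : G) ∈ RG M D θ} from hu), mul_zero, Finset.sum_const_zero,
          norm_zero]
        norm_num
    rw [finsum_congr h6]
    refine h3.trans (le_of_eq ?_)
    ring
  · -- nonvanishing
    intro ψ
    obtain ⟨u, hu⟩ := hreg
    refine ⟨u, ?_⟩
    rw [Set.indicator_of_mem (show u ∈ {u : D | (u : G) ∈ RG M D θ} from hu)]
    have h3 := hNZ3 p M hM G D x θ χ hR ⊥ bot_le (u : G) u.2 (hGRG p M hM hp G D x θ χ h u hu).2 ψ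
      (by rw [hcz]; exact ψ.2.1)
    rw [hcz] at h3
    refine mul_ne_zero ?_ h3
    rcases e1 u with h8 | h8
    · rw [h8]; simp
    · rw [h8]; simp
  · -- the power map
    intro ψ u s hs
    have hps : ¬ p ∣ s := by
      intro hd
      have h3 : s ≡ 0 [MOD p] := (Nat.modEq_zero_iff_dvd).2 hd
      have h4 : 1 ≡ 0 [MOD p] := hs.symm.trans h3
      have h5 := (Nat.modEq_zero_iff_dvd).1 h4
      exact hM.pr.one_lt.not_ge (Nat.le_of_dvd one_pos h5)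
    have hiff := r2 (u : G) u.2 s hps
    change {u : D | (u : G) ∈ RG M D θ}.indicator
        (fun u : D => (ε u : ℂ) * dd M (Cz (⊤ : Subgroup G) (u : G)) θ ψ u) (u ^ s) = {u : D | (u : G) ∈ RG M D θ}.indicator
        (fun u : D => (ε u : ℂ) * dd M (Cz (⊤ : Subgroup G) (u : G)) θ ψ u) u
    by_cases hu : (u : G) ∈ RG M D θ
    · rw [Set.indicator_of_mem (show u ∈ {u : D | (u : G) ∈ RG M D θ} from hu),
        Set.indicator_of_mem (show u ^ s ∈ {u : D | (u : G) ∈ RG M D θ} from by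
          change ((u ^ s : D) : G) ∈ RG M D θ
          rw [Subgroup.coe_pow]
          exact hiff.2 hu)]
      rw [Subgroup.coe_pow]
      obtain ⟨k, hk⟩ := hpg u
      have hPE : PEl p (u : G) := ⟨k, by
        have h3 := congrArg (Subtype.val) hk
        simpa using h3⟩
      have h3 := hDP2 p M hM G D θ m hm u hPE (hGRG p M hM hp G D x θ χ h u hu).1 ψ ψ.2.1.1 ψ.2.2 s hs
      rw [h3, e2 u hu s hps]
    · rw [Set.indicator_of_notMem (show u ∉ {u : D | (u : G) ∈ RG M D θ} from hu),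
        Set.indicator_of_notMem (show u ^ s ∉ {u : D | (u : G) ∈ RG M D θ} from by
          change ¬ ((u ^ s : D) : G) ∈ RG M D θ
          rw [Subgroup.coe_pow]
          exact fun h3 => hu (hiff.1 h3))]

/-- **Row BDX** -/
theorem BDX (hDEC : DEC_stmt) (hSGL : SGL_stmt) (hCOV : COV_stmt) (hDP2 : DP2_stmt) (hBES : BES4_stmt) (hNZ3 : NZ3_stmt)
    (hGRG : GRG_stmt) (hRGF : RGF_stmt) (hLCG : LCG_stmt) (hTPR : FI.TPR_stmt) : BDX_stmt := by
  intro p M hM hp G _ _ D x θ χ h n c h' hHL hexp m hm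
  exact BDX_main hDEC hSGL hCOV hDP2 hBES hNZ3 hGRG hRGF hLCG hTPR p M hM hp G D x θ χ h n c h' hHL hexp m hm

end Pool.Agent.LE
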